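import Pool.Agent.N303.SJ.Stm
import Pool.Agent.TH335.RF.P9

set_option autoImplicit false

/-!
# Project SJ, job ST: the theorem of Stein and Tomas away from the endpoint, in all dimensions
-/

open MeasureTheory Set Metric Filter Topology
open scoped ENNReal RealInnerProductSpace NNReal

namespace Pool.Agent.N306.SJ

section A

open Complex
open Pool.Agent.H789R2.FR (E sg T sg_finite)
open Pool.Agent.H438R2.PD (T_meas')

/-- the inequality of Cauchy and Schwarz -/
theorem T_cs {n : ℕ} (hn : 2 ≤ n) (g : E n → ℂ) (hg : Measurable g) (M : ℝ)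
    (hM : ∀ w, ‖g w‖ ≤ M) (x : E n) :
    ‖T g x‖ ^ 2 ≤ (sg n).real univ * ∫ w, ‖g w‖ ^ 2 ∂(sg n) := by
  have hsg : IsFiniteMeasure (sg n) := sg_finite n
  obtain ⟨S, hS⟩ : ∃ S : ℝ, S = (sg n).real univ := ⟨_, rfl⟩
  have hS0 : 0 < S := by
    rw [hS]
    exact Pool.Agent.H438R2.BR.T7.sg_pos (by omega)
  have i1 : Integrable (fun w => ‖g w‖) (sg n) :=
    Integrable.of_bound hg.norm.aestronglyMeasurable M
      (Filter.Eventually.of_forall fun w => by simpa using hM w)
  have i2 : Integrable (fun w => ‖g w‖ ^ 2) (sg n) :=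
    Integrable.of_bound (hg.norm.pow_const 2).aestronglyMeasurable (M ^ 2)
      (Filter.Eventually.of_forall fun w => by
        rw [norm_pow, norm_norm]
        exact pow_le_pow_left₀ (norm_nonneg _) (hM w) 2)
  obtain ⟨L, hL⟩ : ∃ L : ℝ, L = ∫ w, ‖g w‖ ∂(sg n) := ⟨_, rfl⟩
  obtain ⟨H, hH⟩ : ∃ H : ℝ, H = ∫ w, ‖g w‖ ^ 2 ∂(sg n) := ⟨_, rfl⟩
  have hL0 : 0 ≤ L := by
    rw [hL]
    exact integral_nonneg fun w => norm_nonneg _
  have h1 : ‖T g x‖ ≤ L := by
    rw [hL]
    unfold T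
    refine (norm_integral_le_integral_norm _).trans (le_of_eq ?_)
    refine integral_congr_ae (Filter.Eventually.of_forall fun w => ?_)
    simp only
    have e : (-((⟪x, w⟫ : ℝ) : ℂ)) * I = ((-(⟪x, w⟫ : ℝ) : ℝ) : ℂ) * I := by push_cast; ring
    rw [norm_mul, e, Complex.norm_exp_ofReal_mul_I, one_mul]
  have h2 : 0 ≤ H - 2 * (L / S) * L + (L / S) ^ 2 * S := by
    have e : ∫ w, (‖g w‖ - L / S) ^ 2 ∂(sg n) = H - 2 * (L / S) * L + (L / S) ^ 2 * S := by
      have e1 : ∀ w, (‖g w‖ - L / S) ^ 2 = ‖g w‖ ^ 2 - 2 * (L / S) * ‖g w‖ + (L / S) ^ 2 :=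
        fun w => by ring
      simp only [e1]
      have a1 : Integrable (fun w => 2 * (L / S) * ‖g w‖) (sg n) := i1.const_mul _
      have a2 : Integrable (fun w => ‖g w‖ ^ 2 - 2 * (L / S) * ‖g w‖) (sg n) := i2.sub a1
      rw [integral_add a2 (integrable_const _),
        integral_sub i2 a1, integral_const_mul, integral_const, smul_eq_mul,
        ← hL, ← hH, ← hS]
      ring
    rw [← e]
    exact integral_nonneg fun w => sq_nonneg _
  have h3 : H - 2 * (L / S) * L + (L / S) ^ 2 * S = H - L ^ 2 / S := by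
    field_simp
    ring
  rw [h3] at h2
  have h4 : L ^ 2 ≤ S * H := by
    have := sub_nonneg.1 h2
    rwa [div_le_iff₀' hS0] at this
  rw [← hS, ← hH]
  calc ‖T g x‖ ^ 2 ≤ L ^ 2 := by gcongr
    _ ≤ _ := h4

/-- densities of norm at most one -/
theorem est (n : ℕ) (hn : 2 ≤ n) (P : ℝ) (hP : 2 * (((n : ℝ) + 1) / ((n : ℝ) - 1)) < P) :
    ∃ C : ℝ, 0 < C ∧ ∀ g : E n → ℂ, Measurable g →
    (∃ M : ℝ, ∀ x, ‖g x‖ ≤ M) → ∫ w, ‖g w‖ ^ 2 ∂(sg n) ≤ 1 →
    ∫⁻ z, ‖T g z‖ₑ ^ P ≤ ENNReal.ofReal C := by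
  obtain ⟨C, hC, hw⟩ := Pool.Agent.H789R2.FR.weak n hn
  have hsg : IsFiniteMeasure (sg n) := sg_finite n
  have hn' : (2 : ℝ) ≤ n := by exact_mod_cast hn
  have hn1 : 0 < (n : ℝ) - 1 := by linarith
  set q : ℝ := ((n : ℝ) + 1) / ((n : ℝ) - 1) with hq
  have hq1 : 1 ≤ q := by rw [hq, le_div_iff₀ hn1]; linarith
  have hP0 : 0 < P := by linarith
  set S : ℝ := (sg n).real univ with hS
  have hS0 : 0 < S := Pool.Agent.H438R2.BR.T7.sg_pos (by omega)
  refine ⟨P * (C * ((S + 1) ^ (P - 2 * q - 1 + 1) / (P - 2 * q - 1 + 1))),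
    ?_, fun g hg hb hH => ?_⟩
  · have hpos : 0 < P - 2 * q - 1 + 1 := by linarith
    positivity
  obtain ⟨M, hM⟩ := hb
  have hTm : Measurable (T g) := T_meas' g hg
  have hTb : ∀ x, ‖T g x‖ ≤ S + 1 := fun x => by
    have h1 := T_cs hn g hg M hM x
    rw [← hS] at h1
    have h2 : S * ∫ w, ‖g w‖ ^ 2 ∂(sg n) ≤ S * 1 := by gcongr
    refine abs_le_of_sq_le_sq' ?_ (by linarith) |>.2
    nlinarith
  have hH0 : 0 ≤ ∫ w, ‖g w‖ ^ 2 ∂(sg n) := integral_nonneg fun w => by positivity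
  -- level sets
  have hlev : ∀ t : ℝ, 0 < t → volume {x | t < ‖T g x‖} ≤
      ENNReal.ofReal (C * t ^ (-(2 * q))) := by
    intro t ht
    have hms : MeasurableSet {x | t < ‖T g x‖} := measurableSet_lt measurable_const hTm.norm
    have hun : {x | t < ‖T g x‖} = ⋃ N : ℕ, {x | t < ‖T g x‖} ∩ Metric.closedBall (0 : E n) N := by
      rw [← inter_iUnion, Metric.iUnion_closedBall_nat, inter_univ]
    rw [hun, Monotone.measure_iUnion]
    · apply iSup_le
      intro N
      have hfin : volume ({x | t < ‖T g x‖} ∩ Metric.closedBall (0 : E n) N) ≠ ⊤ :=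
        ((measure_mono inter_subset_right).trans_lt measure_closedBall_lt_top).ne
      have h1 := hw g hg ⟨M, hM⟩ t ht ({x | t < ‖T g x‖} ∩ Metric.closedBall (0 : E n) N)
        (hms.inter measurableSet_closedBall)
        (Metric.isBounded_closedBall.subset inter_subset_right) (fun x hx => le_of_lt hx.1)
      rw [← ENNReal.ofReal_toReal hfin]
      apply ENNReal.ofReal_le_ofReal
      change volume.real _ ≤ _
      refine h1.trans ?_
      have h2 : (∫ w, ‖g w‖ ^ 2 ∂(sg n)) / t ^ 2 ≤ 1 / t ^ 2 := by gcongr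
      have h3 : ((∫ w, ‖g w‖ ^ 2 ∂(sg n)) / t ^ 2) ^ (((n : ℝ) + 1) / ((n : ℝ) - 1)) ≤
          (1 / t ^ 2) ^ q := Real.rpow_le_rpow (by positivity) h2 (by linarith)
      have h4 : (1 / t ^ 2) ^ q = t ^ (-(2 * q)) := by
        rw [Real.div_rpow zero_le_one (by positivity), Real.one_rpow, ← Real.rpow_natCast t 2,
          ← Real.rpow_mul ht.le, Real.rpow_neg ht.le, one_div]
        norm_num
      rw [← h4]
      gcongr
    · intro a b hab
      apply inter_subset_inter_right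
      apply Metric.closedBall_subset_closedBall
      exact_mod_cast hab
  have hlayer := lintegral_rpow_eq_lintegral_meas_lt_mul (volume : Measure (E n))
    (f := fun x => ‖T g x‖) (Filter.Eventually.of_forall fun x => norm_nonneg _)
    hTm.norm.aemeasurable hP0
  have e1 : ∀ x, ‖T g x‖ₑ ^ P = ENNReal.ofReal (‖T g x‖ ^ P) := by
    intro x
    rw [← ofReal_norm, ENNReal.ofReal_rpow_of_nonneg (norm_nonneg _) hP0.le]
  simp only [e1]
  rw [hlayer]
  have h5 : ∫⁻ t in Ioi (0 : ℝ), volume {a | t < ‖T g a‖} * ENNReal.ofReal (t ^ (P - 1)) ≤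
      ∫⁻ t in Ioo (0 : ℝ) (S + 1), ENNReal.ofReal C *
        ENNReal.ofReal (t ^ (P - 2 * q - 1)) := by
    rw [← lintegral_indicator measurableSet_Ioi, ← lintegral_indicator measurableSet_Ioo]
    apply lintegral_mono
    intro t
    by_cases h0 : 0 < t
    · have m0 : t ∈ Ioi (0 : ℝ) := h0
      by_cases h1 : t < S + 1
      · have m1 : t ∈ Ioo (0 : ℝ) (S + 1) := ⟨h0, h1⟩
        simp only [indicator_of_mem m0, indicator_of_mem m1]
        calc volume {a | t < ‖T g a‖} * ENNReal.ofReal (t ^ (P - 1))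
            ≤ ENNReal.ofReal (C * t ^ (-(2 * q))) * ENNReal.ofReal (t ^ (P - 1)) := by
              gcongr
              exact hlev t h0
          _ = _ := by
              rw [← ENNReal.ofReal_mul (by positivity), ← ENNReal.ofReal_mul (by positivity)]
              congr 1
              rw [mul_assoc, ← Real.rpow_add h0]
              congr 2
              ring
      · have m1 : t ∉ Ioo (0 : ℝ) (S + 1) := fun h => h1 h.2
        simp only [indicator_of_mem m0, indicator_of_notMem m1]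
        have : {a | t < ‖T g a‖} = ∅ := by
          ext a
          simp only [mem_ofPred_eq, mem_empty_iff_false, iff_false, not_lt]
          linarith [hTb a]
        rw [this, measure_empty, zero_mul]
    · have m0 : t ∉ Ioi (0 : ℝ) := h0
      simp only [indicator_of_notMem m0]
      exact zero_le
  calc ENNReal.ofReal P * ∫⁻ t in Ioi (0 : ℝ), volume {a | t < ‖T g a‖} *
        ENNReal.ofReal (t ^ (P - 1))
      ≤ ENNReal.ofReal P * (ENNReal.ofReal C *
        ENNReal.ofReal ((S + 1) ^ (P - 2 * q - 1 + 1) / (P - 2 * q - 1 + 1))) := by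
        gcongr
        refine h5.trans ?_
        rw [lintegral_const_mul' _ _ ENNReal.ofReal_ne_top,
          Pool.Agent.H438R2.BR.T7.lint_pow (S + 1) (P - 2 * q - 1) (by linarith) (by linarith)]
    _ = _ := by
        rw [← ENNReal.ofReal_mul (by positivity), ← ENNReal.ofReal_mul hP0.le]

/-- all bounded densities -/
theorem est2 (n : ℕ) (hn : 2 ≤ n) (P : ℝ) (hP : 2 * (((n : ℝ) + 1) / ((n : ℝ) - 1)) < P) :
    ∃ C : ℝ, 0 < C ∧ ∀ g : E n → ℂ, Measurable g →
    (∃ M : ℝ, ∀ x, ‖g x‖ ≤ M) → ∀ h : ℝ, 0 ≤ h → ∫ w, ‖g w‖ ^ 2 ∂(sg n) = h ^ 2 →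
    ∫⁻ z, ‖T g z‖ₑ ^ P ≤ ENNReal.ofReal (C * h ^ P) := by
  obtain ⟨C, hC, hw⟩ := est n hn P hP
  have hn' : (2 : ℝ) ≤ n := by exact_mod_cast hn
  have hn1 : 0 < (n : ℝ) - 1 := by linarith
  have hP0 : 0 < P := by
    have : 0 < 2 * (((n : ℝ) + 1) / ((n : ℝ) - 1)) := by positivity
    linarith
  refine ⟨C, hC, fun g hg hb h hh hH => ?_⟩
  obtain ⟨M, hM⟩ := hb
  rcases hh.eq_or_lt with h0 | h0
  · have e : ∀ z, T g z = 0 := fun z => by
      have h1 := T_cs hn g hg M hM z
      rw [hH, ← h0] at h1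
      have h2 : ‖T g z‖ ^ 2 ≤ 0 := by simpa using h1
      have h3 : ‖T g z‖ = 0 := by
        have := sq_nonneg ‖T g z‖
        exact pow_eq_zero_iff (two_ne_zero) |>.1 (le_antisymm h2 this)
      exact norm_eq_zero.1 h3
    simp [e, hP0]
  · have h1 := hw (fun w => ((h⁻¹ : ℝ) : ℂ) * g w) (hg.const_mul _) ⟨|h⁻¹| * M, fun w => by
        rw [norm_mul, Complex.norm_real, Real.norm_eq_abs]
        exact mul_le_mul_of_nonneg_left (hM w) (abs_nonneg _)⟩ (by
        have e : ∀ w, ‖((h⁻¹ : ℝ) : ℂ) * g w‖ ^ 2 = (h⁻¹) ^ 2 * ‖g w‖ ^ 2 := fun w => by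
          rw [norm_mul, Complex.norm_real, Real.norm_eq_abs, mul_pow, sq_abs]
        simp only [e]
        rw [integral_const_mul, hH, inv_pow, inv_mul_cancel₀ (by positivity)])
    have e2 : ∀ z, T g z = (h : ℂ) * T (fun w => ((h⁻¹ : ℝ) : ℂ) * g w) z := fun z => by
      unfold T
      rw [← integral_const_mul]
      refine integral_congr_ae (Filter.Eventually.of_forall fun w => ?_)
      simp only
      have : (h : ℂ) * ((h⁻¹ : ℝ) : ℂ) = 1 := by
        rw [← Complex.ofReal_mul, mul_inv_cancel₀ h0.ne', Complex.ofReal_one]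
      linear_combination (-(Complex.exp (-((⟪z, w⟫ : ℝ) : ℂ) * I) * g w)) * this
    have e3 : ∀ z, ‖T g z‖ₑ ^ P = ENNReal.ofReal (h ^ P) *
        ‖T (fun w => ((h⁻¹ : ℝ) : ℂ) * g w) z‖ₑ ^ P := fun z => by
      rw [e2 z, enorm_mul, ENNReal.mul_rpow_of_nonneg _ _ hP0.le, ← ofReal_norm (h : ℂ),
        Complex.norm_real, Real.norm_of_nonneg hh, ENNReal.ofReal_rpow_of_nonneg hh hP0.le]
    simp only [e3]
    rw [lintegral_const_mul' _ _ ENNReal.ofReal_ne_top, mul_comm C,
      ENNReal.ofReal_mul (by positivity)]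
    gcongr

theorem scale {n : ℕ} (f : E n → ℝ≥0∞) (hf : Measurable f) :
    ∫⁻ ξ : E n, f ((2 * Real.pi) • ξ) ≤ ∫⁻ z, f z := by
  have h2pi : (2 * Real.pi) ≠ 0 := by positivity
  have h3 := Measure.map_addHaar_smul (volume : Measure (E n)) h2pi
  have h4 : ∫⁻ x : E n, f x ∂(Measure.map ((2 * Real.pi) • · : E n → E n) volume) =
      ∫⁻ ξ : E n, f ((2 * Real.pi) • ξ) := lintegral_map hf (measurable_const_smul _)
  rw [← h4, h3, lintegral_smul_measure, smul_eq_mul, finrank_euclideanSpace_fin,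
    abs_of_nonneg (by positivity)]
  have h5 : ENNReal.ofReal ((2 * Real.pi) ^ n)⁻¹ ≤ 1 := by
    rw [ENNReal.ofReal_le_one]
    apply inv_le_one_of_one_le₀
    apply one_le_pow₀
    linarith [Real.pi_gt_three]
  calc _ ≤ 1 * ∫⁻ z, f z := by gcongr
    _ = _ := one_mul _

theorem ft_eq {n : ℕ} (g : Pool.Agent.N303.SH.S n → ℂ) (G : E n → ℂ) (hG : Measurable G)
    (hg : ∀ x : Pool.Agent.N303.SH.S n, g x = G x) (ξ : E n) :
    Pool.Agent.N303.SH.ft g ξ = T G ((2 * Real.pi) • ξ) := by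
  unfold T Pool.Agent.N303.SH.ft
  have m1 : Measurable fun w : E n =>
      Complex.exp (-((⟪(2 * Real.pi) • ξ, w⟫ : ℝ) : ℂ) * I) * G w := by
    have h2 : Measurable fun z : E n => (⟪(2 * Real.pi) • ξ, z⟫ : ℝ) :=
      (by fun_prop : Continuous _).measurable
    exact (Complex.measurable_exp.comp ((Complex.measurable_ofReal.comp h2).neg.mul_const I)).mul hG
  simp only [sg]
  rw [integral_map measurable_subtype_coe.aemeasurable m1.aestronglyMeasurable]
  apply integral_congr_ae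
  refine Filter.Eventually.of_forall fun x => ?_
  simp only
  rw [hg x, real_inner_smul_left, real_inner_comm]

/-- bounded densities on the sphere -/
theorem est3 (n : ℕ) (hn : 2 ≤ n) (P : ℝ) (hP : 2 * (((n : ℝ) + 1) / ((n : ℝ) - 1)) < P) :
    ∃ C : ℝ, 0 < C ∧ ∀ g : Pool.Agent.N303.SH.S n → ℂ, Measurable g →
    (∃ M : ℝ, ∀ x, ‖g x‖ ≤ M) →
    ∫⁻ z, ‖Pool.Agent.N303.SH.ft g z‖ₑ ^ P ≤
      ENNReal.ofReal (C * Pool.Agent.N303.SJ.N2 g ^ (P / 2)) := by
  obtain ⟨C, hC, hw⟩ := est2 n hn P hP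
  refine ⟨C, hC, fun g hg hb => ?_⟩
  obtain ⟨M, hM⟩ := hb
  obtain ⟨G, hG⟩ : ∃ G : E n → ℂ, G = Function.extend
    ((↑) : Pool.Agent.N303.SH.S n → E n) g 0 := ⟨_, rfl⟩
  have hGm : Measurable G := by
    rw [hG]
    exact (MeasurableEmbedding.subtype_coe (Metric.isClosed_sphere.measurableSet)).measurable_extend
      hg measurable_const
  have hGg : ∀ x : Pool.Agent.N303.SH.S n, G x = g x := fun x => by
    rw [hG]
    exact Subtype.val_injective.extend_apply g 0 x
  have hM0 : 0 ≤ |M| := abs_nonneg _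
  have hGb : ∀ x, ‖G x‖ ≤ |M| := fun x => by
    by_cases hx : x ∈ Metric.sphere (0 : E n) 1
    · have := hGg ⟨x, hx⟩
      change G x = _ at this
      rw [this]
      exact (hM _).trans (le_abs_self M)
    · have : G x = 0 := by
        rw [hG]
        apply Function.extend_apply'
        rintro ⟨y, hy⟩
        exact hx (hy ▸ y.2)
      rw [this, norm_zero]
      exact hM0
  have hint : ∫ w, ‖G w‖ ^ 2 ∂(sg n) = Pool.Agent.N303.SJ.N2 g := by
    have e : sg n = (Pool.Agent.N303.SH.sg n).map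
      ((↑) : Pool.Agent.N303.SH.S n → E n) := rfl
    unfold Pool.Agent.N303.SJ.N2
    rw [e, integral_map measurable_subtype_coe.aemeasurable
      (hGm.norm.pow_const 2).aestronglyMeasurable]
    simp only [hGg]
  have hH0 : 0 ≤ Pool.Agent.N303.SJ.N2 g := integral_nonneg fun x => by positivity
  have h1 := hw G hGm ⟨|M|, hGb⟩ (√(Pool.Agent.N303.SJ.N2 g)) (Real.sqrt_nonneg _)
    (by rw [hint, Real.sq_sqrt hH0])
  have hfun : ∀ ξ, Pool.Agent.N303.SH.ft g ξ = T G ((2 * Real.pi) • ξ) := fun ξ =>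
    ft_eq g G hGm (fun x => (hGg x).symm) ξ
  have hmeas : Measurable fun z => ‖T G z‖ₑ ^ P := (T_meas' G hGm).enorm.pow_const P
  calc ∫⁻ z, ‖Pool.Agent.N303.SH.ft g z‖ₑ ^ P
      = ∫⁻ z, ‖T G ((2 * Real.pi) • z)‖ₑ ^ P := by simp only [hfun]
    _ ≤ ∫⁻ z, ‖T G z‖ₑ ^ P := scale (fun z => ‖T G z‖ₑ ^ P) hmeas
    _ ≤ _ := h1
    _ = _ := by
        congr 2
        rw [Real.sqrt_eq_rpow, ← Real.rpow_mul hH0]
        congr 1
        ring

end A

open Pool.Agent.N303.SH Pool.Agent.N303.SJ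

/-- **ST** -/
theorem t_st : S_ST := by
  intro c hc P hP
  have hc' : (1 : ℝ) ≤ c := by exact_mod_cast hc
  have hP' : 2 * ((((c + 2 : ℕ) : ℝ) + 1) / (((c + 2 : ℕ) : ℝ) - 1)) < P := by
    refine lt_of_eq_of_lt ?_ hP
    have h1 : ((c + 2 : ℕ) : ℝ) - 1 = c + 1 := by push_cast; ring
    rw [h1]
    have h2 : (c : ℝ) + 1 ≠ 0 := by positivity
    push_cast
    field_simp
    ring
  obtain ⟨C, hC, hw⟩ := est3 (c + 2) (by omega) P hP'
  have hP0 : 0 < P := by
    have : 0 < 4 / ((c : ℝ) + 1) := by positivity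
    linarith
  refine ⟨C, hC, fun g hg => ?_⟩
  -- a measurable representative
  obtain ⟨h, hhm, hgh⟩ := hg.1
  have hhm' : Measurable h := hhm.measurable
  have hh : MemLp h 2 (sg (c + 2)) := (memLp_congr_ae hgh).1 hg
  have hi : Integrable h (sg (c + 2)) := hh.integrable (by norm_num)
  have e1 : ∀ ξ, ft g ξ = ft h ξ := fun ξ => by
    unfold ft
    apply integral_congr_ae
    filter_upwards [hgh] with x hx
    rw [hx]
  have e2 : N2 g = N2 h := by
    unfold N2
    apply integral_congr_ae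
    filter_upwards [hgh] with x hx
    rw [hx]
  simp only [e1]
  rw [e2]
  -- truncation
  obtain ⟨u, hu⟩ : ∃ u : ℕ → S (c + 2) → ℂ, u = fun m : ℕ => indicator {x | ‖h x‖ ≤ m} h :=
    ⟨_, rfl⟩
  have hum : ∀ m, Measurable (u m) := fun m => by
    rw [hu]
    exact hhm'.indicator (measurableSet_le hhm'.norm measurable_const)
  have hub : ∀ m x, ‖u m x‖ ≤ m := fun m x => by
    rw [hu]
    simp only [indicator_apply, mem_ofPred_eq]
    split_ifs with hx
    · exact hx
    · simp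
  have hule : ∀ m x, ‖u m x‖ ≤ ‖h x‖ := fun m x => by
    rw [hu]
    exact norm_indicator_le_norm_self _ _
  have hlim : ∀ ξ, Tendsto (fun m => ft (u m) ξ) atTop (𝓝 (ft h ξ)) := fun ξ => by
    unfold ft
    apply tendsto_integral_of_dominated_convergence (fun x => ‖h x‖)
    · intro m
      have : Continuous fun x : S (c + 2) =>
          Complex.exp (-(2 * Real.pi * ⟪(x : E (c + 2)), ξ⟫ : ℝ) * Complex.I) := by
        fun_prop
      exact this.aestronglyMeasurable.mul (hum m).aestronglyMeasurable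
    · exact hi.norm
    · intro m
      refine Eventually.of_forall fun x => ?_
      rw [norm_mul, ← Complex.ofReal_neg, Complex.norm_exp_ofReal_mul_I, one_mul]
      exact hule m x
    · refine Eventually.of_forall fun x => ?_
      apply tendsto_const_nhds.congr'
      obtain ⟨N, hN⟩ := exists_nat_ge ‖h x‖
      filter_upwards [eventually_ge_atTop N] with m hm
      have : u m x = h x := by
        rw [hu]
        apply indicator_of_mem
        change ‖h x‖ ≤ m
        exact hN.trans (by exact_mod_cast hm)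
      rw [this]
  have hN2 : ∀ m, N2 (u m) ≤ N2 h := fun m => by
    unfold N2
    apply integral_mono_of_nonneg (Eventually.of_forall fun x => by positivity)
    · exact hh.integrable_norm_pow (by norm_num)
    · exact Eventually.of_forall fun x => pow_le_pow_left₀ (norm_nonneg _) (hule m x) 2
  have hN0 : ∀ m, 0 ≤ N2 (u m) := fun m => integral_nonneg fun x => by positivity
  have hlim2 : ∀ ξ, Tendsto (fun m => ‖ft (u m) ξ‖ₑ ^ P) atTop (𝓝 (‖ft h ξ‖ₑ ^ P)) := fun ξ =>
    ((ENNReal.continuous_rpow_const).tendsto _).comp ((hlim ξ).enorm)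
  calc ∫⁻ ξ, ‖ft h ξ‖ₑ ^ P = ∫⁻ ξ, liminf (fun m => ‖ft (u m) ξ‖ₑ ^ P) atTop :=
        lintegral_congr fun ξ => (hlim2 ξ).liminf_eq.symm
    _ ≤ liminf (fun m => ∫⁻ ξ, ‖ft (u m) ξ‖ₑ ^ P) atTop := by
        apply lintegral_liminf_le
        intro m
        have : Integrable (u m) (sg (c + 2)) :=
          Integrable.of_bound (hum m).aestronglyMeasurable m (Eventually.of_forall (hub m))
        exact (ft_cont this).measurable.enorm.pow_const P
    _ ≤ ENNReal.ofReal (C * N2 h ^ (P / 2)) := by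
        refine liminf_le_of_le (by isBoundedDefault) ?_
        intro b hb
        obtain ⟨m, hm⟩ := hb.exists
        refine hm.trans ((hw (u m) (hum m) ⟨m, hub m⟩).trans ?_)
        apply ENNReal.ofReal_le_ofReal
        have := hN0 m
        have := hN2 m
        gcongr

end Pool.Agent.N306.SJ
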